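import Mathlib
import Pool.Agent.N928.FG.Stm

/-!
# Multiplicative functions on the free product
-/

set_option autoImplicit false

namespace Pool.Agent.N42.FG

open Pool.Agent.N928.FG Pool.Agent.Helper125 Pool.Agent.Helper125.Gam

open Classical in
lemma red_spec (x : Ga) : Red (red x) ∧ ev (red x) = x := by
  unfold red
  exact ⟨⟨(Monoid.CoprodI.Word.equiv x).ne_one, (Monoid.CoprodI.Word.equiv x).chain_ne⟩,
    Monoid.CoprodI.Word.equiv.symm_apply_apply x⟩

lemma red_ev (l : List (Lt A)) (hl : Red l) : red (ev l) = l :=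
  red_inj (red_spec (ev l)).1 hl (red_spec (ev l)).2

/-- the product of the values at the syllables -/
noncomputable def Ph (F : A → ℝ) (x : Ga) : ℝ := ((red x).map (fun t => F t.2)).prod

lemma Ph_ev (F : A → ℝ) (l : List (Lt A)) (hl : Red l) :
    Ph F (ev l) = (l.map (fun t => F t.2)).prod := by
  rw [Ph, red_ev l hl]

lemma red_nil : Red ([] : List (Lt A)) := ⟨by simp, by simp⟩

lemma Ph_one (F : A → ℝ) : Ph F 1 = 1 := by
  have h := Ph_ev F [] red_nil
  rw [ev_nil] at h
  rw [h, List.map_nil, List.prod_nil]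

lemma key (F : A → ℝ) (hF : F 1 = 1) (b : Bool) (c : A) (l : List (Lt A)) (hl : Red l)
    (hb : ∀ x ∈ l.head?, x.1 ≠ b) : Ph F (inc b c * ev l) = F c * Ph F (ev l) := by
  by_cases hc : c = 1
  · subst hc
    rw [map_one, one_mul, hF, one_mul]
  · have h2 : Red ((⟨b, c⟩ : Lt A) :: l) := by
      refine ⟨?_, ?_⟩
      · intro y hy
        rcases List.mem_cons.1 hy with rfl | hy
        · exact hc
        · exact hl.1 y hy
      · rw [List.isChain_cons]
        exact ⟨fun y hy h => hb y hy h.symm, hl.2⟩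
    have h3 : inc b c * ev l = ev ((⟨b, c⟩ : Lt A) :: l) :=
      (ev_cons (⟨b, c⟩ : Lt A) l).symm
    rw [h3, Ph_ev F _ h2, Ph_ev F _ hl, List.map_cons, List.prod_cons]

theorem t_MULT : S_MULT := by
  intro F hF
  refine ⟨Ph F, Ph_one F, ?_, fun x => rfl, ?_, ?_⟩
  · intro b c
    have h := key F hF b c [] red_nil (by simp)
    rwa [ev_nil, mul_one, Ph_one, mul_one] at h
  · intro b x
    obtain ⟨a, l, rfl, hl, hb⟩ := split b x
    exact ⟨a, ev l, rfl, fun c => key F hF b c l hl hb⟩
  · intro x hx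
    obtain ⟨l, hl, rfl⟩ := exists_red x
    rcases l with _ | ⟨t, l⟩
    · exact absurd ev_nil hx
    · have h1 : Red l := ⟨fun y hy => hl.1 y (List.mem_cons_of_mem _ hy), hl.2.tail⟩
      have h2 : ∀ x ∈ l.head?, x.1 ≠ t.1 := by
        intro y hy h
        exact (List.isChain_cons.1 hl.2).1 y hy h.symm
      refine ⟨t.1, t.2, ev l, hl.1 t List.mem_cons_self, ev_cons t l,
        fun c => key F hF t.1 c l h1 h2, fun c => key F hF (!t.1) c (t :: l) hl ?_⟩
      intro y hy
      simp only [List.head?_cons, Option.mem_def, Option.some.injEq] at hy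
      rw [← hy]
      cases t.1 <;> decide

end Pool.Agent.N42.FG
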